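import Pool.Agent.Q118.FC.Main

set_option autoImplicit false

/-!
# F-nef divisors on `M̄_{0,n}` which are symmetric in classes of marks

The marks are `0, …, p-1` (the type `Fin p`) and `∞`, so `n = p + 1`.  The boundary divisors of
`M̄_{0,n}` are the `δ_S`, `S` a set of marks different from `∞` with `2 ≤ |S| < p` (`δ_S`
separates `S` from the other marks); every divisor is a combination of them.

Let `D` be an F-nef divisor whose restriction to the factor `M̄_{0,k+1}` of a boundary stratum (or
to the whole space) is symmetric in the special points of each class of a partition of the special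
points into `r` classes.  The degree of `D` on a curve in this factor is at least the degree of `D`
on an averaged family in the factor `M̄_{0,r+1}` of the stratum in which the points of each class
have been collected behind one special point.  Hence it is nonnegative if there are at most four
classes, and for any number of classes if never more than three classes take part in a collision.
There is no bound on `n`.

Proof.  Let `e` be minus the coefficient function of the restriction, in the gauge in which the
points have the value `0`; it depends only on the numbers of points in the classes, and the F-curves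
give `e(A ∪ B) + e(A ∪ C) + e(B ∪ C) ≤ e(A ∪ B ∪ C) + e(A) + e(B) + e(C)`.  If one of the sets is a
point `x` of a class `X` with `a` elements, the other one consists of `v` points of `X` and a fixed
set `W`, and the third one of `w` points of `X`, then the increment of `i ↦ e(W + i points of X)` at
`v + w` is at least the sum of its increment at `v` and of the increment of
`i ↦ e(i points of X)` at `w`.  The average of these inequalities over the cells of a uniformly
random lattice path in the rectangle `[0,i) × [i,a)` (all three marginals are uniform) gives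
`e(W + i points) ≤ (1 - i/a) e(W) + i/a (e(W + X) - e(X)) + i(i-1)/(a(a-1)) e(X)`.  This is applied to
one class after the other.  For the averaged family one uses the starting result TripleCollisions
(collisions of at most three marks).
-/

namespace Pool.Agent.Results.MP_23e236_ag.ClassesOfMarks

open Finset

/-- `c` is a family of coefficients: it stands for the divisor `∑ c S • δ_S`, the sum over the
`S` with `2 ≤ |S| < p`; it vanishes on the sets that give no boundary divisor. -/
def IsDivisor {p : ℕ} (c : Finset (Fin p) → ℝ) : Prop :=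
  (∀ S : Finset (Fin p), S.card ≤ 1 → c S = 0) ∧ c univ = 0

/-- The degree of `∑ c S • δ_S` on the F-curve of the partition `A, B, C, (the rest, with ∞)` of the
marks: the F-curve has degree `1` on `δ_(A∪B), δ_(A∪C), δ_(B∪C)`, degree `-1` on
`δ_A, δ_B, δ_C, δ_(A∪B∪C)` (those of them that exist) and `0` on the others. -/
noncomputable def fDegree {p : ℕ} (c : Finset (Fin p) → ℝ) (A B C : Finset (Fin p)) : ℝ :=
  c (A ∪ B) + c (A ∪ C) + c (B ∪ C) - c A - c B - c C - c (A ∪ B ∪ C)

/-- `A, B, C` are three blocks of a partition of the marks into four blocks, the fourth one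
containing `∞`. -/
def Blocks {p : ℕ} (A B C : Finset (Fin p)) : Prop :=
  A.Nonempty ∧ B.Nonempty ∧ C.Nonempty ∧ Disjoint A B ∧ Disjoint A C ∧ Disjoint B C

/-- `∑ c S • δ_S` has nonnegative degree on every F-curve. -/
def FNef {p : ℕ} (c : Finset (Fin p) → ℝ) : Prop :=
  ∀ A B C : Finset (Fin p), Blocks A B C → 0 ≤ fDegree c A B C

/-- `m T` and `d` are the degrees of the `δ_T` and of `ψ_∞` on a curve in `M̄_{0,k+1}` that meets the
interior: they are nonnegative integers (`m T = 0` if `T` gives no boundary divisor), and
`ψ_∞ = ∑ δ_T`, the sum over the `T` that contain `i` and `j`, for all marks `i ≠ j` different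
from `∞`. -/
def IsCurve {k : ℕ} (m : Finset (Fin k) → ℕ) (d : ℕ) : Prop :=
  (∀ T : Finset (Fin k), T.card ≤ 1 → m T = 0) ∧ m univ = 0 ∧
    ∀ i j : Fin k, i ≠ j → ∑ T ∈ univ.filter (fun T : Finset (Fin k) => i ∈ T ∧ j ∈ T), m T = d

/-- The degree of `∑ c S • δ_S` on a curve in the boundary, in the factor `M̄_{0,k+1}` of a stratum:
the special points of the component that moves are the `i : Fin k`, behind `i` are the marks
`P i`, and behind the last special point are the remaining marks, with `∞`.  The divisor `δ_S`
restricts to `δ_T` if `S` is the union of the `P i` with `i ∈ T` and `2 ≤ |T| < k`, to `-ψ_i` if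
`S = P i` and to `-ψ_∞` if `S` is the union of all `P i`; the degree of `ψ_i` on the curve is the
sum of the `m T` with `i ∈ T`, minus `d`. -/
noncomputable def stratumDegree {p k : ℕ} (c : Finset (Fin p) → ℝ) (P : Fin k → Finset (Fin p))
    (m : Finset (Fin k) → ℕ) (d : ℕ) : ℝ :=
  ∑ T : Finset (Fin k), c (T.biUnion P) * m T -
    ∑ i : Fin k, c (P i) * (∑ T ∈ univ.filter (fun T : Finset (Fin k) => i ∈ T), (m T : ℝ) - d) -
    c (univ.biUnion P) * d

/-- The number of elements of `T` in the class `j` (the classes are given by `κ`). -/
def inClass {k r : ℕ} (κ : Fin k → Fin r) (T : Finset (Fin k)) (j : Fin r) : ℕ :=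
  (T.filter (fun i => κ i = j)).card

/-- The divisor is symmetric in the special points of each class: the coefficient of the divisor
that separates the marks behind `T` depends only on the numbers of elements of `T` in the
classes. -/
def SymmetricIn {p k r : ℕ} (c : Finset (Fin p) → ℝ) (P : Fin k → Finset (Fin p))
    (κ : Fin k → Fin r) : Prop :=
  ∀ T T' : Finset (Fin k), (∀ j, inClass κ T j = inClass κ T' j) →
    c (T.biUnion P) = c (T'.biUnion P)

/-- The marks behind the special points of the class `j`. -/
def collected {p k r : ℕ} (P : Fin k → Finset (Fin p)) (κ : Fin k → Fin r) (j : Fin r) :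
    Finset (Fin p) :=
  (univ.filter (fun i => κ i = j)).biUnion P

/-- The averaged family, on the sets `Z` of classes with `2 ≤ |Z| < r`: every `T` contributes
`m T` times the number of choices of one point in every class such that the chosen points of `T`
are those of the classes in `Z`. -/
def average {k r : ℕ} (κ : Fin k → Fin r) (m : Finset (Fin k) → ℕ) (Z : Finset (Fin r)) : ℕ :=
  if 2 ≤ Z.card ∧ Z ≠ univ then
    ∑ T : Finset (Fin k), m T *
      ((∏ j ∈ Z, inClass κ T j) * ∏ j ∈ Zᶜ, (inClass κ univ j - inClass κ T j))
  else 0

/-- The degree of `ψ_∞` on the averaged family: the number `N` of choices of one point in every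
class, times `d`, minus the sum of the `m T` times the number of such choices inside `T` (for
`r ≥ 2` classes this sum is at most `N * d`, so the subtraction is not truncated). -/
def averageDegree {k r : ℕ} (κ : Fin k → Fin r) (m : Finset (Fin k) → ℕ) (d : ℕ) : ℕ :=
  (∏ j, inClass κ univ j) * d - ∑ T : Finset (Fin k), m T * ∏ j, inClass κ T j

section

variable {p k : ℕ} {c : Finset (Fin p) → ℝ}

/-- Minus the coefficients of the restriction of the divisor, the value on points being zero. -/
noncomputable def E (c : Finset (Fin p) → ℝ) (P : Fin k → Finset (Fin p)) (T : Finset (Fin k)) :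
    ℝ := ∑ i ∈ T, c (P i) - c (T.biUnion P)

lemma stratum_eq (P : Fin k → Finset (Fin p)) {m : Finset (Fin k) → ℕ} {d : ℕ} :
    stratumDegree c P m d = d * E c P univ - ∑ T : Finset (Fin k), (m T : ℝ) * E c P T := by
  have h4 : ∑ T : Finset (Fin k), (m T : ℝ) * E c P T =
      ∑ i : Fin k, c (P i) * ∑ T ∈ univ.filter (fun T : Finset (Fin k) => i ∈ T), (m T : ℝ) -
        ∑ T : Finset (Fin k), c (T.biUnion P) * m T := by
    have h5 : ∀ T : Finset (Fin k), (m T : ℝ) * E c P T =
        ∑ i : Fin k, (if i ∈ T then c (P i) * (m T : ℝ) else 0) - c (T.biUnion P) * m T := by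
      intro T
      unfold E
      rw [mul_sub, mul_sum, mul_comm (m T : ℝ) (c (T.biUnion P))]
      congr 1
      rw [← sum_filter, filter_mem_eq_inter, univ_inter]
      exact sum_congr rfl fun i _ => mul_comm _ _
    rw [sum_congr rfl fun T _ => h5 T, sum_sub_distrib, sum_comm]
    congr 1
    refine sum_congr rfl fun i _ => ?_
    rw [mul_sum, sum_filter]
  rw [h4]
  unfold stratumDegree
  have h7 : ∑ i : Fin k, c (P i) *
      (∑ T ∈ univ.filter (fun T : Finset (Fin k) => i ∈ T), (m T : ℝ) - d) =
      ∑ i : Fin k, c (P i) * ∑ T ∈ univ.filter (fun T : Finset (Fin k) => i ∈ T), (m T : ℝ) -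
        d * ∑ i : Fin k, c (P i) := by
    rw [mul_sum, ← sum_sub_distrib]
    exact sum_congr rfl fun i _ => by ring
  rw [h7]
  unfold E
  ring

variable {P : Fin k → Finset (Fin p)}

lemma E_empty (hc : IsDivisor c) : E c P ∅ = 0 := by
  simp [E, hc.1 ∅ (by simp)]

lemma E_single (i : Fin k) : E c P {i} = 0 := by
  simp [E]

lemma E_FF (hF : FNef c) (hPne : ∀ i, (P i).Nonempty)
    (hP : ∀ i j, i ≠ j → Disjoint (P i) (P j)) : Pool.Agent.Q118.FC.FF (E c P) := by
  have hne : ∀ T : Finset (Fin k), T.Nonempty → (T.biUnion P).Nonempty := by
    rintro T ⟨i, hi⟩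
    obtain ⟨x, hx⟩ := hPne i
    exact ⟨x, mem_biUnion.2 ⟨i, hi, hx⟩⟩
  have hdj : ∀ A B : Finset (Fin k), Disjoint A B → Disjoint (A.biUnion P) (B.biUnion P) := by
    intro A B hAB
    rw [disjoint_left]
    intro x hx hx'
    obtain ⟨i, hi, hxi⟩ := mem_biUnion.1 hx
    obtain ⟨j, hj, hxj⟩ := mem_biUnion.1 hx'
    have hij : i ≠ j := by
      rintro rfl
      exact disjoint_left.1 hAB hi hj
    exact disjoint_left.1 (hP i j hij) hxi hxj
  intro A B C hA hB hC hAB hAC hBC
  have h2 := hF _ _ _ ⟨hne A hA, hne B hB, hne C hC, hdj A B hAB, hdj A C hAC, hdj B C hBC⟩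
  have hABC : Disjoint (A ∪ B) C := disjoint_union_left.2 ⟨hAC, hBC⟩
  simp only [E]
  unfold fDegree at h2
  have hu1 : (A ∪ B ∪ C).biUnion P = A.biUnion P ∪ B.biUnion P ∪ C.biUnion P := by
    rw [union_biUnion, union_biUnion]
  have hu2 : (A ∪ B).biUnion P = A.biUnion P ∪ B.biUnion P := union_biUnion
  have hu3 : (A ∪ C).biUnion P = A.biUnion P ∪ C.biUnion P := union_biUnion
  have hu4 : (B ∪ C).biUnion P = B.biUnion P ∪ C.biUnion P := union_biUnion
  rw [sum_union hABC, sum_union hAB, sum_union hAC, sum_union hBC, hu1, hu2, hu3, hu4]
  linarith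

variable {r : ℕ} {κ : Fin k → Fin r}

lemma E_inv (hκ : Function.Surjective κ) (hsym : SymmetricIn c P κ) :
    Pool.Agent.Q118.FC.Inv κ (E c P) := by
  have h1 : ∀ i i', κ i = κ i' → c (P i) = c (P i') := by
    intro i i' hii
    have h2 := hsym {i} {i'} (fun j => by
      unfold inClass
      by_cases h : κ i = j
      · rw [filter_singleton, filter_singleton, if_pos h, if_pos (hii ▸ h)]
        simp
      · rw [filter_singleton, filter_singleton, if_neg h, if_neg (hii ▸ h)])
    simpa using h2
  choose s hs using hκ
  have h3 : ∀ T : Finset (Fin k), ∑ i ∈ T, c (P i) = ∑ j, (inClass κ T j : ℝ) * c (P (s j)) := by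
    intro T
    rw [← sum_fiberwise T κ]
    refine sum_congr rfl fun j _ => ?_
    have h4 : ∀ i ∈ T.filter (fun i => κ i = j), c (P i) = c (P (s j)) := by
      intro i hi
      apply h1
      rw [hs, (mem_filter.1 hi).2]
    rw [sum_congr rfl h4, sum_const, nsmul_eq_mul]
    rfl
  intro S T hST
  unfold E
  rw [h3 S, h3 T, hsym S T hST]
  congr 1
  refine sum_congr rfl fun j _ => ?_
  have : inClass κ S j = inClass κ T j := hST j
  rw [this]

lemma red_eq (Z : Finset (Fin r)) :
    E c (collected P κ) Z = Pool.Agent.Q118.FC.red κ (E c P) Z := by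
  have h1 : Z.biUnion (collected P κ) = (univ.filter (fun i => κ i ∈ Z)).biUnion P := by
    ext x
    simp only [collected, mem_biUnion, mem_filter, mem_univ, true_and]
    constructor
    · rintro ⟨j, hj, i, rfl, hx⟩
      exact ⟨i, hj, hx⟩
    · rintro ⟨i, hi, hx⟩
      exact ⟨κ i, hi, i, rfl, hx⟩
  have h2 : ∑ i ∈ univ.filter (fun i => κ i ∈ Z), c (P i) =
      ∑ j ∈ Z, ∑ i ∈ univ.filter (fun i => κ i = j), c (P i) := by
    rw [← sum_fiberwise_of_maps_to (s := univ.filter (fun i => κ i ∈ Z)) (t := Z) (g := κ)
      (fun i hi => (mem_filter.1 hi).2)]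
    refine sum_congr rfl fun j hj => ?_
    refine sum_congr ?_ fun _ _ => rfl
    ext i
    simp only [mem_filter, mem_univ, true_and]
    constructor
    · exact fun h => h.2
    · exact fun h => ⟨h ▸ hj, h⟩
  have h3 : ∑ j ∈ Z, E c P (Pool.Agent.Q118.FC.cls κ j) =
      ∑ j ∈ Z, ∑ i ∈ univ.filter (fun i => κ i = j), c (P i) -
        ∑ j ∈ Z, c (collected P κ j) := by
    rw [← sum_sub_distrib]
    rfl
  unfold Pool.Agent.Q118.FC.red
  rw [h3]
  have h4 : E c P (univ.filter (fun i => κ i ∈ Z)) =
      ∑ i ∈ univ.filter (fun i => κ i ∈ Z), c (P i) -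
        c ((univ.filter (fun i => κ i ∈ Z)).biUnion P) := rfl
  rw [h4, h2]
  unfold E
  rw [h1]
  ring

lemma isCurve_average {m : Finset (Fin k) → ℕ} {d : ℕ} (hm : IsCurve m d) :
    IsCurve (average κ m) (averageDegree κ m d) := by
  refine ⟨fun Z hZ => ?_, ?_, fun j j' hj => ?_⟩
  · unfold average
    rw [if_neg]
    omega
  · unfold average
    rw [if_neg]
    tauto
  · have h1 := Pool.Agent.Q118.FC.pair_avg' (κ := κ) hm.2.2 hj
    have h2 : averageDegree κ m d = Pool.Agent.Q118.FC.deg' κ m d := by
      unfold averageDegree Pool.Agent.Q118.FC.deg' Pool.Agent.Q118.FC.avg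
      simp only [compl_univ, prod_empty, mul_one]
      rfl
    rw [h2, ← h1]
    rfl

lemma comparison (hc : IsDivisor c) (hF : FNef c) (hPne : ∀ i, (P i).Nonempty)
    (hP : ∀ i j, i ≠ j → Disjoint (P i) (P j)) (hκ : Function.Surjective κ)
    (hsym : SymmetricIn c P κ) {m : Finset (Fin k) → ℕ} {d : ℕ} (hm : IsCurve m d) :
    stratumDegree c (collected P κ) (average κ m) (averageDegree κ m d) ≤
      (∏ j, (inClass κ univ j : ℝ)) * stratumDegree c P m d := by
  have h1 := Pool.Agent.Q118.FC.compare' hκ (E_inv hκ hsym) (E_FF hF hPne hP) E_single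
    (E_empty hc) hm.2.2
  have h2 : averageDegree κ m d = Pool.Agent.Q118.FC.deg' κ m d := by
    unfold averageDegree Pool.Agent.Q118.FC.deg' Pool.Agent.Q118.FC.avg
    simp only [compl_univ, prod_empty, mul_one]
    rfl
  rw [stratum_eq, stratum_eq, red_eq, h2]
  simp only [red_eq]
  exact h1

lemma nonneg (hc : IsDivisor c) (hF : FNef c) (hPne : ∀ i, (P i).Nonempty)
    (hP : ∀ i j, i ≠ j → Disjoint (P i) (P j)) (hκ : Function.Surjective κ)
    (hsym : SymmetricIn c P κ) {m : Finset (Fin k) → ℕ} {d : ℕ} (hm : IsCurve m d)
    (hr : r ≤ 4 ∨ ∀ T, 0 < m T → (T.image κ).card ≤ 3) : 0 ≤ stratumDegree c P m d := by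
  have h1 := comparison hc hF hPne hP hκ hsym hm
  have hpos : (0 : ℝ) < ∏ j, (inClass κ univ j : ℝ) := by
    refine prod_pos fun j _ => ?_
    obtain ⟨i, hi⟩ := hκ j
    have : 0 < inClass κ univ j := card_pos.2 ⟨i, by simpa using hi⟩
    exact_mod_cast this
  have hbig : ∀ Z : Finset (Fin r), 4 ≤ Z.card → average κ m Z = 0 := by
    intro Z hZ
    unfold average
    split_ifs with h
    · rcases hr with hr | hr
      · exfalso
        apply h.2
        rw [← card_eq_iff_eq_univ]
        have := card_le_univ Z
        rw [Fintype.card_fin] at *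
        omega
      · refine sum_eq_zero fun T _ => ?_
        rcases Nat.eq_zero_or_pos (m T) with h0 | h0
        · rw [h0, zero_mul]
        · have h2 := hr T h0
          have h3 : ∃ j ∈ Z, j ∉ T.image κ := by
            by_contra hcon
            push Not at hcon
            have := card_le_card (show Z ⊆ T.image κ from hcon)
            omega
          obtain ⟨j, hjZ, hjT⟩ := h3
          have h4 : inClass κ T j = 0 := by
            unfold inClass
            rw [card_eq_zero, filter_eq_empty_iff]
            intro i hi hij
            exact hjT (mem_image.2 ⟨i, hi, hij⟩)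
          rw [prod_eq_zero hjZ h4, zero_mul, mul_zero]
    · rfl
  have h5 := Pool.Agent.Q118.FC.triple_le
    (h := Pool.Agent.Q118.FC.red κ (E c P)) (Pool.Agent.Q118.FC.FF_red hκ (E_FF hF hPne hP))
    (fun Z hZ => Pool.Agent.Q118.FC.red_small (E_empty hc) Z hZ)
    (m := average κ m) (d := averageDegree κ m d) (isCurve_average hm) hbig
  have h6 : 0 ≤ stratumDegree c (collected P κ) (average κ m) (averageDegree κ m d) := by
    rw [stratum_eq, red_eq]
    simp only [red_eq]
    linarith
  have h7 := h6.trans h1
  by_contra hcon
  push Not at hcon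
  have := mul_neg_of_pos_of_neg hpos hcon
  linarith

end

/-- **Main theorem.** Let `D = ∑ c S • δ_S` be an F-nef divisor on `M̄_{0,p+1}`.
1. Let `κ` be a partition into classes of the special points of the factor `M̄_{0,k+1}` of a boundary
   stratum, and let the restriction of `D` be symmetric in the points of each class. Then for every
   curve (or family of nonnegative integers with the relations of a curve) in this factor `D` has, up
   to a positive factor, at least the degree that it has on the averaged family in the stratum in
   which the points of every class have been collected behind one special point; and its degree is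
   nonnegative if there are at most four classes or never more than three classes take part in a
   collision.
2. The same for curves in the interior, for `D` symmetric in classes of marks.
3. If `D` is symmetric in all marks different from `∞`, it has nonnegative degree on all curves in
   the factors of boundary strata whose special points have at most four different numbers of marks
   behind them, or on which special points with at most three different numbers collide. -/
theorem result :
    ∀ (p : ℕ) (c : Finset (Fin p) → ℝ), IsDivisor c → FNef c →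
      (∀ (k r : ℕ) (P : Fin k → Finset (Fin p)) (κ : Fin k → Fin r) (m : Finset (Fin k) → ℕ)
        (d : ℕ), (∀ i, (P i).Nonempty) → (∀ i j, i ≠ j → Disjoint (P i) (P j)) →
        Function.Surjective κ → SymmetricIn c P κ → IsCurve m d →
        IsCurve (average κ m) (averageDegree κ m d) ∧
        stratumDegree c (collected P κ) (average κ m) (averageDegree κ m d) ≤
          (∏ j, (inClass κ univ j : ℝ)) * stratumDegree c P m d ∧
        ((r ≤ 4 ∨ ∀ T, 0 < m T → (T.image κ).card ≤ 3) → 0 ≤ stratumDegree c P m d)) ∧
      (∀ (r : ℕ) (κ : Fin p → Fin r) (m : Finset (Fin p) → ℕ) (d : ℕ),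
        Function.Surjective κ →
        (∀ S S' : Finset (Fin p), (∀ j, inClass κ S j = inClass κ S' j) → c S = c S') →
        IsCurve m d → (r ≤ 4 ∨ ∀ S, 0 < m S → (S.image κ).card ≤ 3) →
        0 ≤ ∑ S, c S * m S) ∧
      ((∀ S S' : Finset (Fin p), S.card = S'.card → c S = c S') →
        ∀ (k : ℕ) (P : Fin k → Finset (Fin p)) (m : Finset (Fin k) → ℕ) (d : ℕ),
        (∀ i, (P i).Nonempty) → (∀ i j, i ≠ j → Disjoint (P i) (P j)) → IsCurve m d →
        ((univ.image (fun i => (P i).card)).card ≤ 4 ∨
          ∀ T, 0 < m T → (T.image (fun i => (P i).card)).card ≤ 3) →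
        0 ≤ stratumDegree c P m d) := by
  intro p c hc hF
  refine ⟨?_, ?_, ?_⟩
  · intro k r P κ m d hPne hP hκ hsym hm
    exact ⟨isCurve_average hm, comparison hc hF hPne hP hκ hsym hm,
      nonneg hc hF hPne hP hκ hsym hm⟩
  · intro r κ m d hκ hsym hm hr
    have h1 := nonneg (P := fun i : Fin p => ({i} : Finset (Fin p))) hc hF
      (fun i => singleton_nonempty i) (fun i j hij => by simpa using hij) hκ
      (fun T T' h => by
        simp only [biUnion_singleton_eq_self]
        exact hsym T T' h) hm hr
    have h2 : stratumDegree c (fun i : Fin p => ({i} : Finset (Fin p))) m d =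
        ∑ S, c S * m S := by
      unfold stratumDegree
      have h3 : ∀ i : Fin p, c ({i} : Finset (Fin p)) = 0 := fun i => hc.1 _ (by simp)
      simp only [biUnion_singleton_eq_self, h3, zero_mul, sum_const_zero, sub_zero, hc.2]
    rwa [h2] at h1
  · intro hcard k P m d hPne hP hm hr
    set B : Finset ℕ := univ.image (fun i => (P i).card) with hB
    set κ : Fin k → Fin B.card := fun i =>
      B.equivFin ⟨(P i).card, mem_image.2 ⟨i, mem_univ i, rfl⟩⟩ with hκdef
    have hκeq : ∀ i i', κ i = κ i' ↔ (P i).card = (P i').card := by
      intro i i'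
      simp [hκdef]
    have hκ : Function.Surjective κ := by
      intro j
      obtain ⟨⟨b, hb⟩, hbj⟩ := B.equivFin.surjective j
      obtain ⟨i, _, hi⟩ := mem_image.1 hb
      refine ⟨i, ?_⟩
      rw [← hbj]
      simp only [hκdef]
      congr 1
      exact Subtype.ext hi
    have himg : ∀ T : Finset (Fin k), (T.image κ).card = (T.image (fun i => (P i).card)).card := by
      intro T
      have h1 : T.image (fun i => (P i).card) =
          (T.image κ).image (fun j => ((B.equivFin.symm j : B) : ℕ)) := by
        rw [image_image]
        refine image_congr ?_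
        intro i _
        simp [hκdef]
      have hinj : Function.Injective (fun j => ((B.equivFin.symm j : B) : ℕ)) := by
        intro j j' h
        exact B.equivFin.symm.injective (Subtype.ext h)
      rw [h1, card_image_of_injective (T.image κ) hinj]
    refine nonneg hc hF hPne hP hκ ?_ hm ?_
    · intro T T' hT
      apply hcard
      have hb : ∀ T : Finset (Fin k), (T.biUnion P).card = ∑ i ∈ T, (P i).card := fun T =>
        card_biUnion fun i _ j _ hij => hP i j hij
      choose s hs using hκ
      have h3 : ∀ T : Finset (Fin k), ∑ i ∈ T, (P i).card =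
          ∑ j, inClass κ T j * (P (s j)).card := by
        intro T
        rw [← sum_fiberwise T κ]
        refine sum_congr rfl fun j _ => ?_
        have h4 : ∀ i ∈ T.filter (fun i => κ i = j), (P i).card = (P (s j)).card := by
          intro i hi
          rw [← hκeq, hs, (mem_filter.1 hi).2]
        rw [sum_congr rfl h4, sum_const, smul_eq_mul]
        rfl
      rw [hb, hb, h3, h3]
      exact sum_congr rfl fun j _ => by rw [hT j]
    · rcases hr with hr | hr
      · exact Or.inl hr
      · refine Or.inr fun T hT => ?_
        rw [himg]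
        exact hr T hT

end Pool.Agent.Results.MP_23e236_ag.ClassesOfMarks
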