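import Pool.Agent.Q115.FN.Gauge

set_option autoImplicit false

/-!
# F-nef divisors on `M̄_{0,n}` and curves with light collisions

The marks are `0, …, p-1` (the type `Fin p`) and `∞`, so `n = p + 1`.  The boundary divisors of
`M̄_{0,n}` are the `δ_S`, `S` a set of marks different from `∞` with `2 ≤ |S| < p` (`δ_S`
separates `S` from the other marks); every divisor is a combination of them.

A collision of `x` with `s` other marks costs `s ^ 2 / (s + 1)` at each of these marks, if `s ≥ 2`;
collisions of two marks cost nothing.  An F-nef divisor has nonnegative degree on a curve if the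
collisions of `x` and `j` cost at most `d = ψ_∞ · C` in total, for all marks `x ≠ j`.  More
generally, it suffices that the collisions of each mark form a good family.
-/

namespace Pool.Agent.Results.MP_23e236_ag.LightCollisions

open Finset

/-- `c` is a family of coefficients: it stands for the divisor `∑ c S • δ_S`, the sum over the
`S` with `2 ≤ |S| < p`; it vanishes on the sets that give no boundary divisor. -/
def IsDivisor {p : ℕ} (c : Finset (Fin p) → ℝ) : Prop :=
  (∀ S : Finset (Fin p), S.card ≤ 1 → c S = 0) ∧ c univ = 0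

/-- The degree of `∑ c S • δ_S` on the F-curve of the partition `A, B, C, (the rest, with ∞)` of the
marks: the F-curve has degree `1` on `δ_(A∪B), δ_(A∪C), δ_(B∪C)`, degree `-1` on
`δ_A, δ_B, δ_C, δ_(A∪B∪C)` (those of them that exist) and `0` on the others. -/
noncomputable def fDegree {p : ℕ} (c : Finset (Fin p) → ℝ) (A B C : Finset (Fin p)) : ℝ :=
  c (A ∪ B) + c (A ∪ C) + c (B ∪ C) - c A - c B - c C - c (A ∪ B ∪ C)

/-- `A, B, C` are three blocks of a partition of the marks into four blocks, the fourth one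
containing `∞`. -/
def Blocks {p : ℕ} (A B C : Finset (Fin p)) : Prop :=
  A.Nonempty ∧ B.Nonempty ∧ C.Nonempty ∧ Disjoint A B ∧ Disjoint A C ∧ Disjoint B C

/-- `∑ c S • δ_S` has nonnegative degree on every F-curve. -/
def FNef {p : ℕ} (c : Finset (Fin p) → ℝ) : Prop :=
  ∀ A B C : Finset (Fin p), Blocks A B C → 0 ≤ fDegree c A B C

/-- `m T` and `d` are the degrees of the `δ_T` and of `ψ_∞` on a curve in `M̄_{0,k+1}` that meets the
interior: they are nonnegative integers (`m T = 0` if `T` gives no boundary divisor), and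
`ψ_∞ = ∑ δ_T`, the sum over the `T` that contain `i` and `j`, for all marks `i ≠ j` different
from `∞`. -/
def IsCurve {k : ℕ} (m : Finset (Fin k) → ℕ) (d : ℕ) : Prop :=
  (∀ T : Finset (Fin k), T.card ≤ 1 → m T = 0) ∧ m univ = 0 ∧
    ∀ i j : Fin k, i ≠ j → ∑ T ∈ univ.filter (fun T : Finset (Fin k) => i ∈ T ∧ j ∈ T), m T = d

/-- The degree of `∑ c S • δ_S` on a curve in the boundary, in the factor `M̄_{0,k+1}` of a stratum:
the special points of the component that moves are the `i : Fin k`, behind `i` are the marks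
`P i`, and behind the last special point are the remaining marks, with `∞`.  The divisor `δ_S`
restricts to `δ_T` if `S` is the union of the `P i` with `i ∈ T` and `2 ≤ |T| < k`, to `-ψ_i` if
`S = P i` and to `-ψ_∞` if `S` is the union of all `P i`; the degree of `ψ_i` on the curve is the
sum of the `m T` with `i ∈ T`, minus `d`. -/
noncomputable def stratumDegree {p k : ℕ} (c : Finset (Fin p) → ℝ) (P : Fin k → Finset (Fin p))
    (m : Finset (Fin k) → ℕ) (d : ℕ) : ℝ :=
  ∑ T : Finset (Fin k), c (T.biUnion P) * m T -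
    ∑ i : Fin k, c (P i) * (∑ T ∈ univ.filter (fun T : Finset (Fin k) => i ∈ T), (m T : ℝ) - d) -
    c (univ.biUnion P) * d

/-- The good families of sets with weights on a set `Y`:
* `light`: `∑ |T| ^ 2 / (|T| + 1) * w T ≤ 1` at each element of `Y`, the sum over the sets with at
  least two elements that contain it;
* `pairs`: sets of at most two elements, the weights of the pairs at an element add up to at most
  one;
* `parts`: disjoint subsets of `Y` of weight one;
* `mix`: convex combinations of good families on `Y`;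
* `subst`: each set `T` of a good family is replaced by a good family on `T`;
* `smaller`: smaller weights (the weights of the sets with less than two elements do not matter). -/
inductive Good {k : ℕ} : Finset (Fin k) → (Finset (Fin k) → ℝ) → Prop
  | light (Y : Finset (Fin k)) (w : Finset (Fin k) → ℝ) (h0 : ∀ T, 0 ≤ w T)
      (hY : ∀ T, w T ≠ 0 → T ⊆ Y)
      (h : ∀ y ∈ Y, ∑ T ∈ univ.filter (fun T : Finset (Fin k) => y ∈ T ∧ 2 ≤ T.card),
        (T.card : ℝ) ^ 2 / (T.card + 1) * w T ≤ 1) : Good Y w
  | pairs (Y : Finset (Fin k)) (w : Finset (Fin k) → ℝ) (h0 : ∀ T, 0 ≤ w T)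
      (hY : ∀ T, w T ≠ 0 → T ⊆ Y ∧ T.card ≤ 2)
      (h : ∀ y ∈ Y, ∑ T ∈ univ.filter (fun T : Finset (Fin k) => y ∈ T ∧ T.card = 2), w T ≤ 1) :
      Good Y w
  | parts (Y : Finset (Fin k)) (s : Finset (Finset (Fin k))) (hs : ∀ T ∈ s, T ⊆ Y)
      (hd : ∀ T ∈ s, ∀ U ∈ s, T ≠ U → Disjoint T U) : Good Y (fun T => if T ∈ s then 1 else 0)
  | mix (Y : Finset (Fin k)) (n : ℕ) (l : Fin n → ℝ) (w : Fin n → Finset (Fin k) → ℝ)
      (h0 : ∀ i, 0 ≤ l i) (h1 : ∑ i, l i ≤ 1) (h : ∀ i, Good Y (w i)) :
      Good Y (fun T => ∑ i, l i * w i T)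
  | subst (Y : Finset (Fin k)) (w : Finset (Fin k) → ℝ) (v : Finset (Fin k) → Finset (Fin k) → ℝ)
      (hw : Good Y w) (hv : ∀ T, Good T (v T)) : Good Y (fun U => ∑ T, w T * v T U)
  | smaller (Y : Finset (Fin k)) (w w' : Finset (Fin k) → ℝ) (hw : Good Y w) (h0 : ∀ T, 0 ≤ w' T)
      (h : ∀ T, 2 ≤ T.card → w' T ≤ w T) : Good Y w'

/-- The collisions of the mark `x`: the set `T` of other marks has the weight
`m (T ∪ {x}) / d`. -/
noncomputable def link {k : ℕ} (m : Finset (Fin k) → ℕ) (d : ℕ) (x : Fin k)
    (T : Finset (Fin k)) : ℝ :=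
  if x ∈ T then 0 else (m (insert x T) : ℝ) / d

/-- What the collisions `S` of `x` and `j` with `q ≤ |S|` cost: `(|S| - 1) ^ 2 / |S|` each. -/
noncomputable def cost {k : ℕ} (m : Finset (Fin k) → ℕ) (x j : Fin k) (q : ℕ) : ℝ :=
  ∑ S ∈ univ.filter (fun S : Finset (Fin k) => x ∈ S ∧ j ∈ S ∧ q ≤ S.card),
    ((S.card : ℝ) - 1) ^ 2 / S.card * m S

section good

variable {k : ℕ}

lemma Good.sound {Y : Finset (Fin k)} {w : Finset (Fin k) → ℝ} (h : Good Y w) :
    (∀ T, 0 ≤ w T) ∧ ∀ g : Finset (Fin k) → ℝ, Pool.Agent.TH451.FC.Super g →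
      ∑ T, w T * Pool.Agent.TH451.FC.Phi g T ≤ Pool.Agent.TH451.FC.Phi g Y := by
  induction h with
  | light Y w h0 hY h =>
    exact ⟨h0, fun g hg => Q115.FN.light_le_univ hg Y w h0 (fun T _ hT => hY T hT) h⟩
  | pairs Y w h0 hY h =>
    refine ⟨h0, fun g hg => ?_⟩
    refine le_trans (le_of_eq ?_) (Q115.FN.pairs_le hg Y w h0 (fun T _ hT => (hY T hT).1) h)
    symm
    refine sum_subset (filter_subset _ _) ?_
    intro T _ hT
    rw [mem_filter, not_and] at hT
    have hT2 := hT (mem_univ _)
    by_cases hw : w T = 0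
    · rw [hw, zero_mul]
    · have h3 := (hY T hw).2
      rw [(Pool.Agent.TH451.FC.Phi_super hg).small T (by omega), mul_zero]
  | parts Y s hs hd =>
    refine ⟨fun T => ?_, fun g hg => ?_⟩
    · show (0 : ℝ) ≤ if T ∈ s then 1 else 0
      split_ifs <;> norm_num
    · have hP := Pool.Agent.TH451.FC.Phi_super hg
      have h1 := hP.family s id (fun T hT U hU hTU => hd T hT U hU hTU)
      have h2 : s.biUnion id ⊆ Y := by
        intro y hy
        rw [mem_biUnion] at hy
        obtain ⟨T, hT, hyT⟩ := hy
        exact hs T hT hyT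
      have h3 := hP.mono h2
      have h4 : ∑ T, (if T ∈ s then (1 : ℝ) else 0) * Pool.Agent.TH451.FC.Phi g T =
          ∑ T ∈ s, Pool.Agent.TH451.FC.Phi g (id T) := by
        simp only [ite_mul, one_mul, zero_mul, id]
        rw [← sum_filter, filter_mem_eq_inter, univ_inter]
      rw [h4]
      exact h1.trans h3
  | mix Y n l w h0 h1 h ih =>
    refine ⟨fun T => sum_nonneg fun i _ => mul_nonneg (h0 i) ((ih i).1 T), fun g hg => ?_⟩
    have h2 : ∑ T, (∑ i, l i * w i T) * Pool.Agent.TH451.FC.Phi g T =
        ∑ i, l i * ∑ T, w i T * Pool.Agent.TH451.FC.Phi g T := by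
      simp only [sum_mul, mul_sum]
      rw [sum_comm]
      refine sum_congr rfl fun i _ => sum_congr rfl fun T _ => ?_
      ring
    rw [h2]
    have h3 : ∑ i, l i * ∑ T, w i T * Pool.Agent.TH451.FC.Phi g T ≤
        ∑ i, l i * Pool.Agent.TH451.FC.Phi g Y :=
      sum_le_sum fun i _ => mul_le_mul_of_nonneg_left ((ih i).2 g hg) (h0 i)
    refine h3.trans ?_
    rw [← sum_mul]
    have h4 := (Pool.Agent.TH451.FC.Phi_super hg).nonneg Y
    nlinarith
  | subst Y w v hw hv ihw ihv =>
    refine ⟨fun U => sum_nonneg fun T _ => mul_nonneg (ihw.1 T) ((ihv T).1 U), fun g hg => ?_⟩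
    have h2 : ∑ U, (∑ T, w T * v T U) * Pool.Agent.TH451.FC.Phi g U =
        ∑ T, w T * ∑ U, v T U * Pool.Agent.TH451.FC.Phi g U := by
      simp only [sum_mul, mul_sum]
      rw [sum_comm]
      refine sum_congr rfl fun i _ => sum_congr rfl fun T _ => ?_
      ring
    rw [h2]
    refine le_trans (sum_le_sum fun T _ => ?_) (ihw.2 g hg)
    exact mul_le_mul_of_nonneg_left ((ihv T).2 g hg) (ihw.1 T)
  | smaller Y w w' hw h0 h ih =>
    refine ⟨h0, fun g hg => ?_⟩
    refine le_trans (sum_le_sum fun T _ => ?_) (ih.2 g hg)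
    have hP := Pool.Agent.TH451.FC.Phi_super hg
    by_cases hT : 2 ≤ T.card
    · exact mul_le_mul_of_nonneg_right (h T hT) (hP.nonneg T)
    · rw [hP.small T (by omega), mul_zero, mul_zero]

lemma zero_of_d {m : Finset (Fin k) → ℕ} (hm : IsCurve m 0) (S : Finset (Fin k)) : m S = 0 := by
  by_cases hS : S.card ≤ 1
  · exact hm.1 S hS
  · obtain ⟨i, hi, j, hj, hij⟩ := one_lt_card.1 (show 1 < S.card by omega)
    have h1 := hm.2.2 i j hij
    rw [sum_eq_zero_iff] at h1
    exact h1 S (mem_filter.2 ⟨mem_univ _, hi, hj⟩)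

lemma link_le {m : Finset (Fin k) → ℕ} {d : ℕ} (hm : IsCurve m d) {x : Fin k}
    (hx : Good (univ.erase x) (link m d x)) (g : Finset (Fin k) → ℝ)
    (hg : Pool.Agent.TH451.FC.Super g) :
    ∑ S ∈ univ.filter (fun S : Finset (Fin k) => x ∈ S),
      (m S : ℝ) * Pool.Agent.TH451.FC.Phi g (S.erase x) ≤
        d * Pool.Agent.TH451.FC.Phi g (univ.erase x) := by
  rcases Nat.eq_zero_or_pos d with hd | hd
  · subst hd
    rw [sum_eq_zero]
    · simp
    · intro S _
      rw [zero_of_d hm S]
      simp
  · have hd' : (0 : ℝ) < d := by exact_mod_cast hd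
    have h1 := hx.sound.2 g hg
    have h2 := mul_le_mul_of_nonneg_left h1 hd'.le
    refine le_trans (le_of_eq ?_) h2
    rw [Q115.FN.sum_link x (fun S T => (m S : ℝ) * Pool.Agent.TH451.FC.Phi g T), mul_sum]
    rw [sum_filter]
    refine sum_congr rfl fun T _ => ?_
    unfold link
    by_cases hxT : x ∈ T
    · rw [if_neg (not_not.2 hxT), if_pos hxT]
      ring
    · rw [if_pos hxT, if_neg hxT]
      field_simp

/-- Reindexing of the cost. -/
lemma cost_eq (m : Finset (Fin k) → ℕ) (d : ℕ) {x y : Fin k} (hxy : y ≠ x) (q : ℕ) :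
    ∑ T ∈ univ.filter (fun T : Finset (Fin k) => y ∈ T ∧ 2 ≤ T.card),
      (T.card : ℝ) ^ 2 / (T.card + 1) * (if q ≤ T.card + 1 then link m d x T else 0) =
        cost m x y (max q 3) / d := by
  have h1 := Q115.FN.sum_link x (fun S T => if y ∈ T ∧ 3 ≤ S.card ∧ q ≤ S.card then
    ((S.card : ℝ) - 1) ^ 2 / S.card * m S / d else 0)
  have h2 : cost m x y (max q 3) / d = ∑ S ∈ univ.filter (fun S : Finset (Fin k) => x ∈ S),
      (if y ∈ S.erase x ∧ 3 ≤ S.card ∧ q ≤ S.card then
        ((S.card : ℝ) - 1) ^ 2 / S.card * m S / d else 0) := by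
    unfold cost
    rw [sum_div, ← sum_filter, filter_filter]
    refine sum_congr ?_ fun S _ => rfl
    ext S
    rw [mem_filter, mem_filter]
    simp only [mem_erase, max_le_iff]
    constructor
    · rintro ⟨h, h', h'', h3, h4⟩
      exact ⟨h, h', ⟨hxy, h''⟩, h4, h3⟩
    · rintro ⟨h, h', ⟨_, h''⟩, h3, h4⟩
      exact ⟨h, h', h'', h4, h3⟩
  rw [h2, h1]
  rw [sum_filter, sum_filter]
  refine sum_congr rfl fun T _ => ?_
  by_cases hxT : x ∈ T
  · rw [if_neg (not_not.2 hxT)]
    unfold link
    simp [hxT]
  · rw [if_pos hxT, card_insert_of_notMem hxT]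
    unfold link
    rw [if_neg hxT]
    by_cases hc : y ∈ T ∧ 2 ≤ T.card
    · rw [if_pos hc]
      by_cases hq' : q ≤ T.card + 1
      · rw [if_pos hq', if_pos ⟨hc.1, by omega, hq'⟩]
        push_cast
        ring
      · rw [if_neg hq', if_neg (fun h => hq' h.2.2), mul_zero]
    · rw [if_neg hc, if_neg]
      rintro ⟨h, h', _⟩
      exact hc ⟨h, by omega⟩

lemma link_nonneg (m : Finset (Fin k) → ℕ) (d : ℕ) (x : Fin k) (T : Finset (Fin k)) :
    0 ≤ link m d x T := by
  unfold link
  split_ifs
  · exact le_rfl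
  · positivity

lemma link_sub (m : Finset (Fin k) → ℕ) (d : ℕ) (x : Fin k) (T : Finset (Fin k))
    (h : link m d x T ≠ 0) : T ⊆ univ.erase x := by
  intro y hy
  rw [mem_erase]
  refine ⟨?_, mem_univ _⟩
  rintro rfl
  apply h
  unfold link
  rw [if_pos hy]

/-- The collisions of more than three marks are light, with the capacity `d - K`, and `K` bounds
the numbers of collisions of three marks. -/
lemma good_of_split {m : Finset (Fin k) → ℕ} {d K : ℕ} {x : Fin k} (hK : K ≤ d)
    (h3 : ∀ j, j ≠ x →
      ∑ S ∈ univ.filter (fun S : Finset (Fin k) => x ∈ S ∧ j ∈ S ∧ S.card = 3), m S ≤ K)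
    (h4 : ∀ j, j ≠ x → cost m x j 4 ≤ (d : ℝ) - K) :
    Good (univ.erase x) (link m d x) := by
  rcases Nat.eq_zero_or_pos d with hd | hd
  · -- no weights
    subst hd
    have h0 : Good (univ.erase x) (fun T => if T ∈ (∅ : Finset (Finset (Fin k))) then 1 else 0) :=
      Good.parts _ ∅ (by simp) (by simp)
    refine Good.smaller _ _ _ h0 (link_nonneg m 0 x) (fun T _ => ?_)
    unfold link
    simp
  have hd' : (0 : ℝ) < d := by exact_mod_cast hd
  have hK' : (K : ℝ) ≤ d := by exact_mod_cast hK
  -- the pairs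
  have g1 : Good (univ.erase x) (fun T => if T.card = 2 then link m d x T * ((d : ℝ) / K) else 0) := by
    refine Good.pairs _ _ (fun T => ?_) (fun T hT => ?_) (fun y hy => ?_)
    · split_ifs
      · exact mul_nonneg (link_nonneg m d x T) (by positivity)
      · exact le_rfl
    · by_cases hc : T.card = 2
      · rw [if_pos hc] at hT
        exact ⟨link_sub m d x T (left_ne_zero_of_mul hT), hc.le⟩
      · rw [if_neg hc] at hT
        exact absurd rfl hT
    · have hyx : y ≠ x := (mem_erase.1 hy).1
      have e1 := Q115.FN.sum_link x (fun S T => if y ∈ T ∧ S.card = 3 then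
        (m S : ℝ) / K else 0)
      have e2 : ∑ T ∈ univ.filter (fun T : Finset (Fin k) => y ∈ T ∧ T.card = 2),
          (if T.card = 2 then link m d x T * (d / K) else 0) =
          ∑ T ∈ univ.filter (fun T : Finset (Fin k) => x ∉ T),
            (if y ∈ T ∧ (insert x T).card = 3 then (m (insert x T) : ℝ) / K else 0) := by
        rw [sum_filter, sum_filter]
        refine sum_congr rfl fun T _ => ?_
        by_cases hxT : x ∈ T
        · rw [if_neg (not_not.2 hxT)]
          unfold link
          simp [hxT]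
        · rw [if_pos hxT, card_insert_of_notMem hxT]
          unfold link
          rw [if_neg hxT]
          by_cases hc : y ∈ T ∧ T.card = 2
          · rw [if_pos hc, if_pos hc.2, if_pos ⟨hc.1, by omega⟩]
            field_simp
          · rw [if_neg hc, if_neg]
            rintro ⟨h, h'⟩
            exact hc ⟨h, by omega⟩
      rw [e2, ← e1]
      have e3 : ∑ S ∈ univ.filter (fun S : Finset (Fin k) => x ∈ S),
          (if y ∈ S.erase x ∧ S.card = 3 then (m S : ℝ) / K else 0) =
          (∑ S ∈ univ.filter (fun S : Finset (Fin k) => x ∈ S ∧ y ∈ S ∧ S.card = 3),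
            (m S : ℝ)) / K := by
        rw [sum_div, ← sum_filter, filter_filter]
        refine sum_congr ?_ fun S _ => rfl
        ext S
        rw [mem_filter, mem_filter]
        simp only [mem_erase]
        constructor
        · rintro ⟨h, h', ⟨_, h''⟩, h3⟩
          exact ⟨h, h', h'', h3⟩
        · rintro ⟨h, h', h'', h3⟩
          exact ⟨h, h', ⟨hyx, h''⟩, h3⟩
      rw [e3]
      refine div_le_one_of_le₀ ?_ (Nat.cast_nonneg K)
      exact_mod_cast h3 y hyx
  -- the larger sets
  have g2 : Good (univ.erase x)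
      (fun T => if 3 ≤ T.card then link m d x T * ((d : ℝ) / (d - K)) else 0) := by
    have hnn : (0 : ℝ) ≤ d / ((d : ℝ) - K) := div_nonneg hd'.le (by linarith)
    refine Good.light _ _ (fun T => ?_) (fun T hT => ?_) (fun y hy => ?_)
    · split_ifs
      · exact mul_nonneg (link_nonneg m d x T) hnn
      · exact le_rfl
    · by_cases hc : 3 ≤ T.card
      · rw [if_pos hc] at hT
        exact link_sub m d x T (left_ne_zero_of_mul hT)
      · rw [if_neg hc] at hT
        exact absurd rfl hT
    · have hyx : y ≠ x := (mem_erase.1 hy).1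
      have e1 := cost_eq m d hyx 4
      have e2 : ∑ T ∈ univ.filter (fun T : Finset (Fin k) => y ∈ T ∧ 2 ≤ T.card),
          (T.card : ℝ) ^ 2 / (T.card + 1) *
            (if 3 ≤ T.card then link m d x T * ((d : ℝ) / (d - K)) else 0) =
          ((d : ℝ) / (d - K)) * ∑ T ∈ univ.filter (fun T : Finset (Fin k) => y ∈ T ∧ 2 ≤ T.card),
            (T.card : ℝ) ^ 2 / (T.card + 1) *
              (if 4 ≤ T.card + 1 then link m d x T else 0) := by
        rw [mul_sum]
        refine sum_congr rfl fun T _ => ?_
        by_cases hc : 3 ≤ T.card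
        · rw [if_pos hc, if_pos (by omega)]
          ring
        · rw [if_neg hc, if_neg (by omega)]
          ring
      have e0 : max 4 3 = 4 := rfl
      rw [e2, e1, e0]
      have e3 : (d : ℝ) / (d - K) * (cost m x y 4 / d) = cost m x y 4 / (d - K) := by
        field_simp
      rw [e3]
      exact div_le_one_of_le₀ (h4 y hyx) (by linarith)
  have g3 := Good.mix (univ.erase x) 2 ![(K : ℝ) / d, ((d : ℝ) - K) / d]
    ![fun T => if T.card = 2 then link m d x T * (d / K) else 0,
      fun T => if 3 ≤ T.card then link m d x T * ((d : ℝ) / (d - K)) else 0]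
    (by
      intro i
      fin_cases i
      · show (0 : ℝ) ≤ (K : ℝ) / d
        positivity
      · show (0 : ℝ) ≤ ((d : ℝ) - K) / d
        exact div_nonneg (by linarith) hd'.le)
    (by
      rw [Fin.sum_univ_two]
      show (K : ℝ) / d + ((d : ℝ) - K) / d ≤ 1
      apply le_of_eq
      field_simp
      ring)
    (by
      intro i
      fin_cases i
      · exact g1
      · exact g2)
  refine Good.smaller _ _ _ g3 (link_nonneg m d x) ?_
  intro T hT
  rw [Fin.sum_univ_two]
  show link m d x T ≤ (K : ℝ) / d * (if T.card = 2 then link m d x T * (d / K) else 0) +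
    ((d : ℝ) - K) / d * (if 3 ≤ T.card then link m d x T * ((d : ℝ) / (d - K)) else 0)
  by_cases hxT : x ∈ T
  · have : link m d x T = 0 := by
      unfold link
      rw [if_pos hxT]
    rw [this]
    simp
  have hcard := card_insert_of_notMem hxT
  obtain ⟨y, hy⟩ : T.Nonempty := by
    rw [← card_pos]
    omega
  have hyx : y ≠ x := by
    rintro rfl
    exact hxT hy
  by_cases hc : T.card = 2
  · rw [if_pos hc, if_neg (by omega), mul_zero, add_zero]
    rcases Nat.eq_zero_or_pos K with hK0 | hK0
    · have h5 := h3 y hyx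
      have h6 : m (insert x T) ≤
          ∑ S ∈ univ.filter (fun S : Finset (Fin k) => x ∈ S ∧ y ∈ S ∧ S.card = 3), m S :=
        single_le_sum (f := m) (fun _ _ => Nat.zero_le _)
          (mem_filter.2 ⟨mem_univ _, mem_insert_self _ _, mem_insert_of_mem hy, by omega⟩)
      have h7 : m (insert x T) = 0 := by omega
      have h8 : link m d x T = 0 := by
        unfold link
        rw [if_neg hxT, h7]
        simp
      rw [h8]
      simp
    · have hK1 : (0 : ℝ) < K := by exact_mod_cast hK0
      apply le_of_eq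
      field_simp
  · rw [if_neg hc, if_pos (by omega), mul_zero, zero_add]
    rcases hK'.eq_or_lt with hK0 | hK0
    · have h5 := h4 y hyx
      rw [hK0, sub_self] at h5
      have h6 : (((insert x T).card : ℝ) - 1) ^ 2 / (insert x T).card * m (insert x T) ≤
          cost m x y 4 := by
        unfold cost
        exact single_le_sum (f := fun S : Finset (Fin k) => ((S.card : ℝ) - 1) ^ 2 / S.card * m S)
          (fun S _ => by positivity)
          (mem_filter.2 ⟨mem_univ _, mem_insert_self _ _, mem_insert_of_mem hy, by omega⟩)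
      have h7 : (m (insert x T) : ℝ) = 0 := by
        have h8 : (0 : ℝ) < (((insert x T).card : ℝ) - 1) ^ 2 / (insert x T).card := by
          have h9 : (3 : ℝ) ≤ T.card := by
            have : 3 ≤ T.card := by omega
            exact_mod_cast this
          rw [hcard]
          push_cast
          apply div_pos
          · have : (T.card : ℝ) + 1 - 1 = T.card := by ring
            rw [this]
            positivity
          · positivity
        have h10 : (0 : ℝ) ≤ m (insert x T) := Nat.cast_nonneg _
        nlinarith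
      have h8 : link m d x T = 0 := by
        unfold link
        rw [if_neg hxT, h7]
        simp
      rw [h8]
      simp
    · have hK1 : (0 : ℝ) < (d : ℝ) - K := by linarith
      apply le_of_eq
      field_simp

/-- All collisions of more than two marks are light. -/
lemma good_of_light {m : Finset (Fin k) → ℕ} {d : ℕ} {x : Fin k}
    (h : ∀ j, j ≠ x → cost m x j 3 ≤ d) : Good (univ.erase x) (link m d x) := by
  refine Good.light _ _ (link_nonneg m d x) (link_sub m d x) (fun y hy => ?_)
  have hyx : y ≠ x := (mem_erase.1 hy).1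
  have e1 := cost_eq m d hyx 2
  have e2 : ∑ T ∈ univ.filter (fun T : Finset (Fin k) => y ∈ T ∧ 2 ≤ T.card),
      (T.card : ℝ) ^ 2 / (T.card + 1) * link m d x T =
      ∑ T ∈ univ.filter (fun T : Finset (Fin k) => y ∈ T ∧ 2 ≤ T.card),
        (T.card : ℝ) ^ 2 / (T.card + 1) * (if 2 ≤ T.card + 1 then link m d x T else 0) := by
    refine sum_congr rfl fun T hT => ?_
    rw [mem_filter] at hT
    rw [if_pos (by omega)]
  have e0 : max 2 3 = 3 := rfl
  rw [e2, e1, e0]
  exact div_le_one_of_le₀ (h y hyx) (Nat.cast_nonneg d)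

end good

section

variable {p k : ℕ} {c : Finset (Fin p) → ℝ} {P : Fin k → Finset (Fin p)}

lemma main (hc : IsDivisor c) (hF : FNef c) (hPne : ∀ i, (P i).Nonempty)
    (hP : ∀ i j, i ≠ j → Disjoint (P i) (P j)) {m : Finset (Fin k) → ℕ} {d : ℕ}
    (hm : IsCurve m d) (hg : ∀ x, Good (univ.erase x) (link m d x)) :
    0 ≤ stratumDegree c P m d := by
  set e : Finset (Fin k) → ℝ := fun T => ∑ i ∈ T, c (P i) - c (T.biUnion P) with he
  have e0 : e ∅ = 0 := by
    simp [he, hc.1 ∅ (by simp)]
  have e1 : ∀ i, e {i} = 0 := by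
    intro i
    simp [he]
  have hne : ∀ T : Finset (Fin k), T.Nonempty → (T.biUnion P).Nonempty := by
    rintro T ⟨i, hi⟩
    obtain ⟨x, hx⟩ := hPne i
    exact ⟨x, mem_biUnion.2 ⟨i, hi, hx⟩⟩
  have hdj : ∀ A B : Finset (Fin k), Disjoint A B → Disjoint (A.biUnion P) (B.biUnion P) := by
    intro A B hAB
    rw [disjoint_left]
    intro x hx hx'
    obtain ⟨i, hi, hxi⟩ := mem_biUnion.1 hx
    obtain ⟨j, hj, hxj⟩ := mem_biUnion.1 hx'
    have hij : i ≠ j := by
      rintro rfl
      exact disjoint_left.1 hAB hi hj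
    exact disjoint_left.1 (hP i j hij) hxi hxj
  have h1 := Q115.FN.core (e := e) e0 e1
    (fun A B C hA hB hC hAB hAC hBC => by
      have h2 := hF _ _ _ ⟨hne A hA, hne B hB, hne C hC, hdj A B hAB, hdj A C hAC, hdj B C hBC⟩
      have hABC : Disjoint (A ∪ B) C := disjoint_union_left.2 ⟨hAC, hBC⟩
      have hdeg : fDegree c (A.biUnion P) (B.biUnion P) (C.biUnion P) =
          e (A ∪ B ∪ C) + e A + e B + e C - (e (A ∪ B) + e (A ∪ C) + e (B ∪ C)) := by
        simp only [he, fDegree]
        rw [sum_union hABC, sum_union hAB, sum_union hAC, sum_union hBC, union_biUnion,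
          union_biUnion, union_biUnion, union_biUnion]
        ring
      rw [hdeg] at h2
      linarith)
    hm.2.2 (fun x g hsup => link_le hm (hg x) g hsup)
  have h4 : ∑ T : Finset (Fin k), (m T : ℝ) * e T =
      ∑ i : Fin k, c (P i) * ∑ T ∈ univ.filter (fun T : Finset (Fin k) => i ∈ T), (m T : ℝ) -
        ∑ T : Finset (Fin k), c (T.biUnion P) * m T := by
    have h5 : ∀ T : Finset (Fin k), (m T : ℝ) * e T =
        ∑ i : Fin k, (if i ∈ T then c (P i) * (m T : ℝ) else 0) - c (T.biUnion P) * m T := by
      intro T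
      simp only [he]
      rw [mul_sub, mul_sum, mul_comm (m T : ℝ) (c (T.biUnion P))]
      congr 1
      rw [← sum_filter, filter_mem_eq_inter, univ_inter]
      exact sum_congr rfl fun i _ => mul_comm _ _
    rw [sum_congr rfl fun T _ => h5 T, sum_sub_distrib, sum_comm]
    congr 1
    refine sum_congr rfl fun i _ => ?_
    rw [mul_sum, sum_filter]
  have h6 : stratumDegree c P m d = d * e univ - ∑ T : Finset (Fin k), (m T : ℝ) * e T := by
    rw [h4]
    unfold stratumDegree
    have h7 : ∑ i : Fin k, c (P i) *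
        (∑ T ∈ univ.filter (fun T : Finset (Fin k) => i ∈ T), (m T : ℝ) - d) =
        ∑ i : Fin k, c (P i) * ∑ T ∈ univ.filter (fun T : Finset (Fin k) => i ∈ T), (m T : ℝ) -
          d * ∑ i : Fin k, c (P i) := by
      rw [mul_sum, ← sum_sub_distrib]
      exact sum_congr rfl fun i _ => by ring
    rw [h7]
    simp only [he]
    ring
  rw [h6]
  linarith

end

/-- **Main theorem.** Let `D = ∑ c S • δ_S` be an F-nef divisor on `M̄_{0,p+1}`.
1. Let `m`, `d` be the degrees of the `δ_S` and of `ψ_∞` on a curve `C` that meets the interior (or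
   any numbers that satisfy the same relations).  If the collisions of each mark `x` form a good
   family, then `D · C ≥ 0`.
2. The same holds for the curves in all boundary strata.
3. The collisions of `x` form a good family if the collisions of `x` and `j` with at least three
   marks cost at most `d` in total, for every `j ≠ x`.
4. The collisions of `x` form a good family if for some `K ≤ d` and every `j ≠ x` there are at most
   `K` collisions of `x`, `j` and exactly one further mark, and the collisions of `x`, `j` with at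
   least two further marks cost at most `d - K` in total. -/
theorem result :
    (∀ (p : ℕ) (c : Finset (Fin p) → ℝ), IsDivisor c → FNef c →
      (∀ (m : Finset (Fin p) → ℕ) (d : ℕ), IsCurve m d →
        (∀ x, Good (univ.erase x) (link m d x)) → 0 ≤ ∑ S, c S * m S) ∧
      (∀ (k : ℕ) (P : Fin k → Finset (Fin p)) (m : Finset (Fin k) → ℕ) (d : ℕ),
        (∀ i, (P i).Nonempty) → (∀ i j, i ≠ j → Disjoint (P i) (P j)) → IsCurve m d →
        (∀ x, Good (univ.erase x) (link m d x)) → 0 ≤ stratumDegree c P m d)) ∧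
    (∀ (k : ℕ) (m : Finset (Fin k) → ℕ) (d : ℕ) (x : Fin k),
      (∀ j, j ≠ x → cost m x j 3 ≤ d) → Good (univ.erase x) (link m d x)) ∧
    (∀ (k : ℕ) (m : Finset (Fin k) → ℕ) (d K : ℕ) (x : Fin k), K ≤ d →
      (∀ j, j ≠ x →
        ∑ S ∈ univ.filter (fun S : Finset (Fin k) => x ∈ S ∧ j ∈ S ∧ S.card = 3), m S ≤ K) →
      (∀ j, j ≠ x → cost m x j 4 ≤ (d : ℝ) - K) → Good (univ.erase x) (link m d x)) := by
  refine ⟨fun p c hc hF => ⟨?_, ?_⟩, fun k m d x h => good_of_light h,
    fun k m d K x hK h3 h4 => good_of_split hK h3 h4⟩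
  · intro m d hm hg
    have h1 := main (P := fun i : Fin p => ({i} : Finset (Fin p))) hc hF
      (fun i => singleton_nonempty i) (fun i j hij => by simpa using hij) hm hg
    have h2 : stratumDegree c (fun i : Fin p => ({i} : Finset (Fin p))) m d = ∑ S, c S * m S := by
      unfold stratumDegree
      have h3 : ∀ i : Fin p, c ({i} : Finset (Fin p)) = 0 := fun i => hc.1 _ (by simp)
      simp only [biUnion_singleton_eq_self, h3, zero_mul, sum_const_zero, sub_zero, hc.2]
    rwa [h2] at h1
  · intro k P m d hPne hP hm hg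
    exact main hc hF hPne hP hm hg

end Pool.Agent.Results.MP_23e236_ag.LightCollisions
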