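import Pool.Agent.Q41.FC.Cases

set_option autoImplicit false

/-!
# F-nef divisors pulled back from Hassett's spaces with any number of heavy marks

The marks are `0, …, p-1` (the type `Fin p`) and `∞`, so `n = p + 1`.  The boundary divisors of
`M̄_{0,n}` are the `δ_S`, `S` a set of marks different from `∞` with `2 ≤ |S| < p` (`δ_S`
separates `S` from the other marks); every divisor is a combination of them.

The mark `∞` and the marks in `H` are heavy, the others are light.  The reduction map from
`M̄_{0,n}` to Hassett's space with weights `1` for the heavy marks and small weights for the light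
ones contracts the F-curves three of whose four blocks contain no heavy mark.  The theorem: an
F-nef divisor of degree zero on these F-curves has nonnegative degree on every curve, in the
interior and in all boundary strata, which the reduction map that forgets the light marks contracts,
and, where it is a curve in a factor with exactly four heavy special points, on those which this
map sends with degree at most one to the line `M̄_{0,4}`, and on those for which all light points
meet one of the four heavy points equally often.
-/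

namespace Pool.Agent.Results.MP_23e236_ag.ManyHeavyMarks

open Finset

/-- `c` is a family of coefficients: it stands for the divisor `∑ c S • δ_S`, the sum over the
`S` with `2 ≤ |S| < p`; it vanishes on the sets that give no boundary divisor. -/
def IsDivisor {p : ℕ} (c : Finset (Fin p) → ℝ) : Prop :=
  (∀ S : Finset (Fin p), S.card ≤ 1 → c S = 0) ∧ c univ = 0

/-- The degree of `∑ c S • δ_S` on the F-curve of the partition `A, B, C, (the rest, with ∞)` of the
marks: the F-curve has degree `1` on `δ_(A∪B), δ_(A∪C), δ_(B∪C)`, degree `-1` on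
`δ_A, δ_B, δ_C, δ_(A∪B∪C)` (those of them that exist) and `0` on the others. -/
noncomputable def fDegree {p : ℕ} (c : Finset (Fin p) → ℝ) (A B C : Finset (Fin p)) : ℝ :=
  c (A ∪ B) + c (A ∪ C) + c (B ∪ C) - c A - c B - c C - c (A ∪ B ∪ C)

/-- `A, B, C` are three blocks of a partition of the marks into four blocks, the fourth one
containing `∞`. -/
def Blocks {p : ℕ} (A B C : Finset (Fin p)) : Prop :=
  A.Nonempty ∧ B.Nonempty ∧ C.Nonempty ∧ Disjoint A B ∧ Disjoint A C ∧ Disjoint B C

/-- `∑ c S • δ_S` has nonnegative degree on every F-curve. -/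
def FNef {p : ℕ} (c : Finset (Fin p) → ℝ) : Prop :=
  ∀ A B C : Finset (Fin p), Blocks A B C → 0 ≤ fDegree c A B C

/-- `∑ c S • δ_S` has degree zero on the F-curves which have three blocks without heavy marks
(the heavy marks are `∞` and the marks in `H`). -/
def TrivialOnLight {p : ℕ} (c : Finset (Fin p) → ℝ) (H : Finset (Fin p)) : Prop :=
  ∀ A B C : Finset (Fin p), Blocks A B C → Disjoint (A ∪ B ∪ C) H → fDegree c A B C = 0

/-- `m T` and `d` are the degrees of the `δ_T` and of `ψ_∞` on a curve in `M̄_{0,k+1}` that meets the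
interior: they are nonnegative integers (`m T = 0` if `T` gives no boundary divisor), and
`ψ_∞ = ∑ δ_T`, the sum over the `T` that contain `i` and `j`, for all marks `i ≠ j` different
from `∞`. -/
def IsCurve {k : ℕ} (m : Finset (Fin k) → ℕ) (d : ℕ) : Prop :=
  (∀ T : Finset (Fin k), T.card ≤ 1 → m T = 0) ∧ m univ = 0 ∧
    ∀ i j : Fin k, i ≠ j → ∑ T ∈ univ.filter (fun T : Finset (Fin k) => i ∈ T ∧ j ∈ T), m T = d

/-- The degree of `∑ c S • δ_S` on a curve in the boundary, in the factor `M̄_{0,k+1}` of a stratum:
the special points of the component that moves are the `i : Fin k`, behind `i` are the marks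
`P i`, and behind the last special point are the remaining marks, with `∞`.  The divisor `δ_S`
restricts to `δ_T` if `S` is the union of the `P i` with `i ∈ T` and `2 ≤ |T| < k`, to `-ψ_i` if
`S = P i` and to `-ψ_∞` if `S` is the union of all `P i`; the degree of `ψ_i` on the curve is the
sum of the `m T` with `i ∈ T`, minus `d`. -/
noncomputable def stratumDegree {p k : ℕ} (c : Finset (Fin p) → ℝ) (P : Fin k → Finset (Fin p))
    (m : Finset (Fin k) → ℕ) (d : ℕ) : ℝ :=
  ∑ T : Finset (Fin k), c (T.biUnion P) * m T -
    ∑ i : Fin k, c (P i) * (∑ T ∈ univ.filter (fun T : Finset (Fin k) => i ∈ T), (m T : ℝ) - d) -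
    c (univ.biUnion P) * d

/-- the special points `i` behind which there is a mark of `H`: these and the last special point are
the heavy ones -/
def heavy {p k : ℕ} (P : Fin k → Finset (Fin p)) (H : Finset (Fin p)) : Finset (Fin k) :=
  univ.filter (fun i => ¬ Disjoint (P i) H)

/-- The curve (with heavy special points `K` and the last one) meets no boundary divisor that
separates two heavy points from two others: the map that forgets the light points contracts it. -/
def Contracted {k : ℕ} (K : Finset (Fin k)) (m : Finset (Fin k) → ℕ) : Prop :=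
  ∀ T : Finset (Fin k), m T ≠ 0 → (T ∩ K).card ≤ 1 ∨ K ⊆ T

/-- Three heavy points `K` and the last one: the degree of the curve over `M̄_{0,4}`, which is the
sum of the degrees of the `δ_T` that separate two given points of `K` from the two other heavy ones,
is at most one. -/
def DegreeAtMostOne {k : ℕ} (K : Finset (Fin k)) (m : Finset (Fin k) → ℕ) : Prop :=
  K.card = 3 ∧ ∀ a ∈ K, ∀ b ∈ K, a ≠ b →
    ∑ T ∈ univ.filter (fun T : Finset (Fin k) => T ∩ K = {a, b}), m T ≤ 1

/-- Three heavy points `K` and the last one, and all light points meet one of these four heavy points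
the same number `n` of times (counting the meetings away from the other heavy points). -/
def EqualMeetings {k : ℕ} (K : Finset (Fin k)) (m : Finset (Fin k) → ℕ) : Prop :=
  K.card = 3 ∧ ∃ n : ℕ,
    (∃ a ∈ K, ∀ i, i ∉ K →
      ∑ T ∈ univ.filter (fun T : Finset (Fin k) => T ∩ K = {a} ∧ i ∈ T), m T = n) ∨
    (∀ i, i ∉ K → ∑ T ∈ univ.filter (fun T : Finset (Fin k) => K ⊆ T ∧ i ∉ T), m T = n)

section

variable {p k : ℕ} {c : Finset (Fin p) → ℝ} {P : Fin k → Finset (Fin p)}

lemma main {H : Finset (Fin p)} (hc : IsDivisor c) (hF : FNef c) (hT : TrivialOnLight c H)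
    (hk : 2 ≤ k) (hPne : ∀ i, (P i).Nonempty) (hP : ∀ i j, i ≠ j → Disjoint (P i) (P j))
    {m : Finset (Fin k) → ℕ} {d : ℕ} (hm : IsCurve m d)
    (hK : Contracted (heavy P H) m ∨ DegreeAtMostOne (heavy P H) m ∨
      EqualMeetings (heavy P H) m) : 0 ≤ stratumDegree c P m d := by
  set e : Finset (Fin k) → ℝ := fun T => ∑ i ∈ T, c (P i) - c (T.biUnion P) with he
  have e0 : e ∅ = 0 := by
    simp [he, hc.1 ∅ (by simp)]
  have e1 : ∀ i, e {i} = 0 := by
    intro i
    simp [he]
  have hne : ∀ T : Finset (Fin k), T.Nonempty → (T.biUnion P).Nonempty := by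
    rintro T ⟨i, hi⟩
    obtain ⟨x, hx⟩ := hPne i
    exact ⟨x, mem_biUnion.2 ⟨i, hi, hx⟩⟩
  have hdj : ∀ A B : Finset (Fin k), Disjoint A B → Disjoint (A.biUnion P) (B.biUnion P) := by
    intro A B hAB
    rw [disjoint_left]
    intro x hx hx'
    obtain ⟨i, hi, hxi⟩ := mem_biUnion.1 hx
    obtain ⟨j, hj, hxj⟩ := mem_biUnion.1 hx'
    have hij : i ≠ j := by
      rintro rfl
      exact disjoint_left.1 hAB hi hj
    exact disjoint_left.1 (hP i j hij) hxi hxj
  have hblocks : ∀ A B C : Finset (Fin k), A.Nonempty → B.Nonempty → C.Nonempty →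
      Disjoint A B → Disjoint A C → Disjoint B C →
      Blocks (A.biUnion P) (B.biUnion P) (C.biUnion P) := fun A B C hA hB hC hAB hAC hBC =>
    ⟨hne A hA, hne B hB, hne C hC, hdj A B hAB, hdj A C hAC, hdj B C hBC⟩
  have hdeg : ∀ A B C : Finset (Fin k), Disjoint A B → Disjoint A C → Disjoint B C →
      fDegree c (A.biUnion P) (B.biUnion P) (C.biUnion P) =
        e (A ∪ B ∪ C) + e A + e B + e C - (e (A ∪ B) + e (A ∪ C) + e (B ∪ C)) := by
    intro A B C hAB hAC hBC
    have hABC : Disjoint (A ∪ B) C := disjoint_union_left.2 ⟨hAC, hBC⟩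
    simp only [he, fDegree]
    rw [sum_union hABC, sum_union hAB, sum_union hAC, sum_union hBC, union_biUnion,
      union_biUnion, union_biUnion, union_biUnion]
    ring
  have h1 : ∑ T : Finset (Fin k), (m T : ℝ) * e T ≤ d * e univ := by
    refine Q41.FC.cases (K := heavy P H) (by simpa using hk) e0 e1 ?_ ?_ hm.2.2 ?_
    · intro A B C hA hB hC hAB hAC hBC
      have h2 := hF _ _ _ (hblocks A B C hA hB hC hAB hAC hBC)
      rw [hdeg A B C hAB hAC hBC] at h2
      linarith
    · intro A B C hA hB hC hAB hAC hBC hd
      have h3 : Disjoint (A.biUnion P ∪ B.biUnion P ∪ C.biUnion P) H := by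
        rw [← union_biUnion, ← union_biUnion, disjoint_biUnion_left]
        intro i hi
        by_contra h4
        exact disjoint_left.1 hd hi (mem_filter.2 ⟨mem_univ _, h4⟩)
      have h2 := hT _ _ _ (hblocks A B C hA hB hC hAB hAC hBC) h3
      rw [hdeg A B C hAB hAC hBC] at h2
      linarith
    · rcases hK with hK | ⟨h3, hK⟩ | ⟨h3, n, hK⟩
      · exact Or.inl hK
      · exact Or.inr ⟨h3, Or.inl hK⟩
      · rcases hK with hK | hK
        · exact Or.inr ⟨h3, Or.inr (Or.inl ⟨n, hK⟩)⟩
        · exact Or.inr ⟨h3, Or.inr (Or.inr ⟨n, hK⟩)⟩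
  have h4 : ∑ T : Finset (Fin k), (m T : ℝ) * e T =
      ∑ i : Fin k, c (P i) * ∑ T ∈ univ.filter (fun T : Finset (Fin k) => i ∈ T), (m T : ℝ) -
        ∑ T : Finset (Fin k), c (T.biUnion P) * m T := by
    have h5 : ∀ T : Finset (Fin k), (m T : ℝ) * e T =
        ∑ i : Fin k, (if i ∈ T then c (P i) * (m T : ℝ) else 0) - c (T.biUnion P) * m T := by
      intro T
      simp only [he]
      rw [mul_sub, mul_sum, mul_comm (m T : ℝ) (c (T.biUnion P))]
      congr 1
      rw [← sum_filter, filter_mem_eq_inter, univ_inter]
      exact sum_congr rfl fun i _ => mul_comm _ _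
    rw [sum_congr rfl fun T _ => h5 T, sum_sub_distrib, sum_comm]
    congr 1
    refine sum_congr rfl fun i _ => ?_
    rw [mul_sum, sum_filter]
  have h6 : stratumDegree c P m d = d * e univ - ∑ T : Finset (Fin k), (m T : ℝ) * e T := by
    rw [h4]
    unfold stratumDegree
    have h7 : ∑ i : Fin k, c (P i) *
        (∑ T ∈ univ.filter (fun T : Finset (Fin k) => i ∈ T), (m T : ℝ) - d) =
        ∑ i : Fin k, c (P i) * ∑ T ∈ univ.filter (fun T : Finset (Fin k) => i ∈ T), (m T : ℝ) -
          d * ∑ i : Fin k, c (P i) := by
      rw [mul_sum, ← sum_sub_distrib]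
      exact sum_congr rfl fun i _ => by ring
    rw [h7]
    simp only [he]
    ring
  rw [h6]
  linarith

end

/-- **Main theorem.** Let `D = ∑ c S • δ_S` be an F-nef divisor on `M̄_{0,p+1}` that has degree zero on
all F-curves with three blocks without heavy marks (`∞` and at least three marks `H`). Then
`D · C ≥ 0` for every curve `C` that meets the interior, and in all factors of all boundary strata,
if `C` is contracted by forgetting the light points, or has degree at most one over the space of four
heavy points, or all its light points meet one of four heavy points equally often. -/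
theorem result :
    ∀ (p : ℕ) (H : Finset (Fin p)) (c : Finset (Fin p) → ℝ), 3 ≤ H.card → IsDivisor c → FNef c →
      TrivialOnLight c H →
      (∀ (m : Finset (Fin p) → ℕ) (d : ℕ), IsCurve m d →
        (Contracted H m ∨ DegreeAtMostOne H m ∨ EqualMeetings H m) → 0 ≤ ∑ S, c S * m S) ∧
      (∀ (k : ℕ) (P : Fin k → Finset (Fin p)) (m : Finset (Fin k) → ℕ) (d : ℕ), 3 ≤ k →
        (∀ i, (P i).Nonempty) → (∀ i j, i ≠ j → Disjoint (P i) (P j)) → IsCurve m d →
        (Contracted (heavy P H) m ∨ DegreeAtMostOne (heavy P H) m ∨
          EqualMeetings (heavy P H) m) → 0 ≤ stratumDegree c P m d) := by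
  intro p H c hH hc hF hT
  refine ⟨?_, ?_⟩
  · intro m d hm hK
    have hp : 2 ≤ p := by
      have h1 := card_le_univ H
      rw [Fintype.card_fin] at h1
      omega
    have hheavy : heavy (fun i : Fin p => ({i} : Finset (Fin p))) H = H := by
      ext i
      simp [heavy]
    have h1 := main (P := fun i : Fin p => ({i} : Finset (Fin p))) hc hF hT hp
      (fun i => singleton_nonempty i) (fun i j hij => by simpa using hij) hm
      (by rw [hheavy]; exact hK)
    have h2 : stratumDegree c (fun i : Fin p => ({i} : Finset (Fin p))) m d = ∑ S, c S * m S := by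
      unfold stratumDegree
      have h3 : ∀ i : Fin p, c ({i} : Finset (Fin p)) = 0 := fun i => hc.1 _ (by simp)
      simp only [biUnion_singleton_eq_self, h3, zero_mul, sum_const_zero, sub_zero, hc.2]
    rwa [h2] at h1
  · intro k P m d hk hPne hP hm hK
    exact main hc hF hT (by omega) hPne hP hm hK

end Pool.Agent.Results.MP_23e236_ag.ManyHeavyMarks
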