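import Pool.Agent.Q45.FC.Three

set_option autoImplicit false

/-!
# F-nef divisors pulled back from Hassett's space with three heavy marks

The marks are `0, …, p-1` (the type `Fin p`) and `∞`, so `n = p + 1`.  The boundary divisors of
`M̄_{0,n}` are the `δ_S`, `S` a set of marks different from `∞` with `2 ≤ |S| < p` (`δ_S`
separates `S` from the other marks); every divisor is a combination of them.

Three marks `∞`, `a`, `b` are heavy, the others are light.  The reduction map from `M̄_{0,n}` to
Hassett's space with weights `1` for the heavy marks and small weights for the light ones contracts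
the F-curves three of whose four blocks contain no heavy mark.  The theorem: an F-nef divisor of
degree zero on these F-curves has nonnegative degree on every curve, in the interior and in all
boundary strata.
-/

namespace Pool.Agent.Results.MP_23e236_ag.ThreeHeavyMarks

open Finset

/-- `c` is a family of coefficients: it stands for the divisor `∑ c S • δ_S`, the sum over the
`S` with `2 ≤ |S| < p`; it vanishes on the sets that give no boundary divisor. -/
def IsDivisor {p : ℕ} (c : Finset (Fin p) → ℝ) : Prop :=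
  (∀ S : Finset (Fin p), S.card ≤ 1 → c S = 0) ∧ c univ = 0

/-- The degree of `∑ c S • δ_S` on the F-curve of the partition `A, B, C, (the rest, with ∞)` of the
marks: the F-curve has degree `1` on `δ_(A∪B), δ_(A∪C), δ_(B∪C)`, degree `-1` on
`δ_A, δ_B, δ_C, δ_(A∪B∪C)` (those of them that exist) and `0` on the others. -/
noncomputable def fDegree {p : ℕ} (c : Finset (Fin p) → ℝ) (A B C : Finset (Fin p)) : ℝ :=
  c (A ∪ B) + c (A ∪ C) + c (B ∪ C) - c A - c B - c C - c (A ∪ B ∪ C)

/-- `A, B, C` are three blocks of a partition of the marks into four blocks, the fourth one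
containing `∞`. -/
def Blocks {p : ℕ} (A B C : Finset (Fin p)) : Prop :=
  A.Nonempty ∧ B.Nonempty ∧ C.Nonempty ∧ Disjoint A B ∧ Disjoint A C ∧ Disjoint B C

/-- `∑ c S • δ_S` has nonnegative degree on every F-curve. -/
def FNef {p : ℕ} (c : Finset (Fin p) → ℝ) : Prop :=
  ∀ A B C : Finset (Fin p), Blocks A B C → 0 ≤ fDegree c A B C

/-- `∑ c S • δ_S` has degree zero on the F-curves which have three blocks without heavy marks
(the heavy marks are `a`, `b`, `∞`). -/
def TrivialOnLight {p : ℕ} (c : Finset (Fin p) → ℝ) (a b : Fin p) : Prop :=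
  ∀ A B C : Finset (Fin p), Blocks A B C → a ∉ A ∪ B ∪ C → b ∉ A ∪ B ∪ C → fDegree c A B C = 0

/-- `m T` and `d` are the degrees of the `δ_T` and of `ψ_∞` on a curve in `M̄_{0,k+1}` that meets the
interior: they are nonnegative integers (`m T = 0` if `T` gives no boundary divisor), and
`ψ_∞ = ∑ δ_T`, the sum over the `T` that contain `i` and `j`, for all marks `i ≠ j` different
from `∞`. -/
def IsCurve {k : ℕ} (m : Finset (Fin k) → ℕ) (d : ℕ) : Prop :=
  (∀ T : Finset (Fin k), T.card ≤ 1 → m T = 0) ∧ m univ = 0 ∧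
    ∀ i j : Fin k, i ≠ j → ∑ T ∈ univ.filter (fun T : Finset (Fin k) => i ∈ T ∧ j ∈ T), m T = d

/-- The degree of `∑ c S • δ_S` on a curve in the boundary, in the factor `M̄_{0,k+1}` of a stratum:
the special points of the component that moves are the `i : Fin k`, behind `i` are the marks
`P i`, and behind the last special point are the remaining marks, with `∞`.  The divisor `δ_S`
restricts to `δ_T` if `S` is the union of the `P i` with `i ∈ T` and `2 ≤ |T| < k`, to `-ψ_i` if
`S = P i` and to `-ψ_∞` if `S` is the union of all `P i`; the degree of `ψ_i` on the curve is the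
sum of the `m T` with `i ∈ T`, minus `d`. -/
noncomputable def stratumDegree {p k : ℕ} (c : Finset (Fin p) → ℝ) (P : Fin k → Finset (Fin p))
    (m : Finset (Fin k) → ℕ) (d : ℕ) : ℝ :=
  ∑ T : Finset (Fin k), c (T.biUnion P) * m T -
    ∑ i : Fin k, c (P i) * (∑ T ∈ univ.filter (fun T : Finset (Fin k) => i ∈ T), (m T : ℝ) - d) -
    c (univ.biUnion P) * d

section

variable {p k : ℕ} {c : Finset (Fin p) → ℝ} {P : Fin k → Finset (Fin p)}

lemma exists_heavy (hk : 2 ≤ k) (hP : ∀ i j, i ≠ j → Disjoint (P i) (P j)) (a b : Fin p) :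
    ∃ ia ib : Fin k, ia ≠ ib ∧ ∀ i, i ≠ ia → i ≠ ib → a ∉ P i ∧ b ∉ P i := by
  have huniq : ∀ (x : Fin p) (i j : Fin k), x ∈ P i → x ∈ P j → i = j := by
    intro x i j hi hj
    by_contra hij
    exact disjoint_left.1 (hP i j hij) hi hj
  have hex : ∀ i : Fin k, ∃ j : Fin k, j ≠ i := by
    intro i
    by_cases hi : i = ⟨0, by omega⟩
    · refine ⟨⟨1, by omega⟩, ?_⟩
      rw [hi]
      intro h
      simp at h
    · exact ⟨⟨0, by omega⟩, fun h => hi h.symm⟩
  have h1 : ∀ x : Fin p, ∃ i : Fin k, ∀ j, j ≠ i → x ∉ P j := by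
    intro x
    by_cases hx : ∃ i, x ∈ P i
    · obtain ⟨i, hi⟩ := hx
      exact ⟨i, fun j hj hxj => hj (huniq x j i hxj hi)⟩
    · rw [not_exists] at hx
      exact ⟨⟨0, by omega⟩, fun j _ => hx j⟩
  obtain ⟨ia, ha⟩ := h1 a
  obtain ⟨ib, hb⟩ := h1 b
  by_cases hab : ia = ib
  · obtain ⟨j, hj⟩ := hex ia
    exact ⟨ia, j, hj.symm, fun i hi _ => ⟨ha i hi, hb i (hab ▸ hi)⟩⟩
  · exact ⟨ia, ib, hab, fun i hi hi' => ⟨ha i hi, hb i hi'⟩⟩

lemma main {a b : Fin p} (hc : IsDivisor c) (hF : FNef c) (hT : TrivialOnLight c a b)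
    (hk : 2 ≤ k) (hPne : ∀ i, (P i).Nonempty) (hP : ∀ i j, i ≠ j → Disjoint (P i) (P j))
    {m : Finset (Fin k) → ℕ} {d : ℕ} (hm : IsCurve m d) : 0 ≤ stratumDegree c P m d := by
  obtain ⟨ia, ib, hiab, hheavy⟩ := exists_heavy hk hP a b
  set e : Finset (Fin k) → ℝ := fun T => ∑ i ∈ T, c (P i) - c (T.biUnion P) with he
  have e0 : e ∅ = 0 := by
    simp [he, hc.1 ∅ (by simp)]
  have e1 : ∀ i, e {i} = 0 := by
    intro i
    simp [he]
  have hne : ∀ T : Finset (Fin k), T.Nonempty → (T.biUnion P).Nonempty := by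
    rintro T ⟨i, hi⟩
    obtain ⟨x, hx⟩ := hPne i
    exact ⟨x, mem_biUnion.2 ⟨i, hi, hx⟩⟩
  have hdj : ∀ A B : Finset (Fin k), Disjoint A B → Disjoint (A.biUnion P) (B.biUnion P) := by
    intro A B hAB
    rw [disjoint_left]
    intro x hx hx'
    obtain ⟨i, hi, hxi⟩ := mem_biUnion.1 hx
    obtain ⟨j, hj, hxj⟩ := mem_biUnion.1 hx'
    have hij : i ≠ j := by
      rintro rfl
      exact disjoint_left.1 hAB hi hj
    exact disjoint_left.1 (hP i j hij) hxi hxj
  have hblocks : ∀ A B C : Finset (Fin k), A.Nonempty → B.Nonempty → C.Nonempty →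
      Disjoint A B → Disjoint A C → Disjoint B C →
      Blocks (A.biUnion P) (B.biUnion P) (C.biUnion P) := fun A B C hA hB hC hAB hAC hBC =>
    ⟨hne A hA, hne B hB, hne C hC, hdj A B hAB, hdj A C hAC, hdj B C hBC⟩
  have hdeg : ∀ A B C : Finset (Fin k), Disjoint A B → Disjoint A C → Disjoint B C →
      fDegree c (A.biUnion P) (B.biUnion P) (C.biUnion P) =
        e (A ∪ B ∪ C) + e A + e B + e C - (e (A ∪ B) + e (A ∪ C) + e (B ∪ C)) := by
    intro A B C hAB hAC hBC
    have hABC : Disjoint (A ∪ B) C := disjoint_union_left.2 ⟨hAC, hBC⟩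
    simp only [he, fDegree]
    rw [sum_union hABC, sum_union hAB, sum_union hAC, sum_union hBC, union_biUnion,
      union_biUnion, union_biUnion, union_biUnion]
    ring
  have h1 := Q45.FC.core (e := e) e0 e1
    (fun A B C hA hB hC hAB hAC hBC => by
      have h2 := hF _ _ _ (hblocks A B C hA hB hC hAB hAC hBC)
      rw [hdeg A B C hAB hAC hBC] at h2
      linarith)
    hiab
    (fun A B C hA hB hC hAB hAC hBC ha hb => by
      have h3 : ∀ x : Fin p, (∀ i, i ≠ ia → i ≠ ib → x ∉ P i) →
          x ∉ A.biUnion P ∪ B.biUnion P ∪ C.biUnion P := by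
        intro x hx hmem
        rw [← union_biUnion, ← union_biUnion] at hmem
        obtain ⟨i, hi, hxi⟩ := mem_biUnion.1 hmem
        refine hx i ?_ ?_ hxi
        · rintro rfl
          exact ha hi
        · rintro rfl
          exact hb hi
      have h2 := hT _ _ _ (hblocks A B C hA hB hC hAB hAC hBC)
        (h3 a fun i h h' => (hheavy i h h').1) (h3 b fun i h h' => (hheavy i h h').2)
      rw [hdeg A B C hAB hAC hBC] at h2
      linarith)
    hm.2.2
  have h4 : ∑ T : Finset (Fin k), (m T : ℝ) * e T =
      ∑ i : Fin k, c (P i) * ∑ T ∈ univ.filter (fun T : Finset (Fin k) => i ∈ T), (m T : ℝ) -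
        ∑ T : Finset (Fin k), c (T.biUnion P) * m T := by
    have h5 : ∀ T : Finset (Fin k), (m T : ℝ) * e T =
        ∑ i : Fin k, (if i ∈ T then c (P i) * (m T : ℝ) else 0) - c (T.biUnion P) * m T := by
      intro T
      simp only [he]
      rw [mul_sub, mul_sum, mul_comm (m T : ℝ) (c (T.biUnion P))]
      congr 1
      rw [← sum_filter, filter_mem_eq_inter, univ_inter]
      exact sum_congr rfl fun i _ => mul_comm _ _
    rw [sum_congr rfl fun T _ => h5 T, sum_sub_distrib, sum_comm]
    congr 1
    refine sum_congr rfl fun i _ => ?_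
    rw [mul_sum, sum_filter]
  have h6 : stratumDegree c P m d = d * e univ - ∑ T : Finset (Fin k), (m T : ℝ) * e T := by
    rw [h4]
    unfold stratumDegree
    have h7 : ∑ i : Fin k, c (P i) *
        (∑ T ∈ univ.filter (fun T : Finset (Fin k) => i ∈ T), (m T : ℝ) - d) =
        ∑ i : Fin k, c (P i) * ∑ T ∈ univ.filter (fun T : Finset (Fin k) => i ∈ T), (m T : ℝ) -
          d * ∑ i : Fin k, c (P i) := by
      rw [mul_sum, ← sum_sub_distrib]
      exact sum_congr rfl fun i _ => by ring
    rw [h7]
    simp only [he]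
    ring
  rw [h6]
  linarith

end

/-- **Main theorem.** Let `D = ∑ c S • δ_S` be an F-nef divisor on `M̄_{0,p+1}` that has degree zero on
all F-curves with three blocks without the heavy marks `a`, `b`, `∞`.  Then
1. `D · C ≥ 0` for every curve `C` that meets the interior (and for every family of nonnegative
   integers that satisfies the relations between the intersection numbers of a curve with `ψ_∞` and
   the boundary divisors);
2. the same holds for the curves in all boundary strata: `D` has nonnegative degree on every such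
   family in every factor of a stratum. -/
theorem result :
    ∀ (p : ℕ) (a b : Fin p) (c : Finset (Fin p) → ℝ), IsDivisor c → FNef c →
      TrivialOnLight c a b →
      (∀ (m : Finset (Fin p) → ℕ) (d : ℕ), 3 ≤ p → IsCurve m d → 0 ≤ ∑ S, c S * m S) ∧
      (∀ (k : ℕ) (P : Fin k → Finset (Fin p)) (m : Finset (Fin k) → ℕ) (d : ℕ), 3 ≤ k →
        (∀ i, (P i).Nonempty) → (∀ i j, i ≠ j → Disjoint (P i) (P j)) → IsCurve m d →
        0 ≤ stratumDegree c P m d) := by
  intro p a b c hc hF hT
  refine ⟨?_, ?_⟩
  · intro m d hp hm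
    have h1 := main (P := fun i : Fin p => ({i} : Finset (Fin p))) hc hF hT (by omega)
      (fun i => singleton_nonempty i) (fun i j hij => by simpa using hij) hm
    have h2 : stratumDegree c (fun i : Fin p => ({i} : Finset (Fin p))) m d = ∑ S, c S * m S := by
      unfold stratumDegree
      have h3 : ∀ i : Fin p, c ({i} : Finset (Fin p)) = 0 := fun i => hc.1 _ (by simp)
      simp only [biUnion_singleton_eq_self, h3, zero_mul, sum_const_zero, sub_zero, hc.2]
    rwa [h2] at h1
  · intro k P m d hk hPne hP hm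
    exact main hc hF hT (by omega) hPne hP hm

end Pool.Agent.Results.MP_23e236_ag.ThreeHeavyMarks
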